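import Mathlib
import Pool.Agent.R463.ChenG

/-!
# Progressions in dense sets of Goldbach representations `2 n = p + P_2`, under sieve conditions

For EVERY large `n`: every subset of positive relative density of the primes `p` with `2 n - p` a product
of at most two primes, `p` avoiding up to `r` arbitrary residue classes modulo every prime
`q ≤ (2 n) ^ (1 / t)`, contains arithmetic progressions of any length with differences at most a power of
`log n`, uniformly in the residue classes.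
-/

set_option autoImplicit false

open Finset Filter

namespace Pool.Agent.Results.MP_7b7e48_nt.ChenSubsets

/-- the number of the residues `m` modulo `q` such that `q` divides `m` or `2 n - m`, or `m ≡ a`
modulo `q` for some `a ∈ F q` -/
def nu (n : ℕ) (F : ℕ → Finset ℤ) (q : ℕ) : ℕ :=
  ((range q).filter (fun m : ℕ => (q : ℤ) ∣ m ∨ (q : ℤ) ∣ 2 * (n : ℤ) - m ∨
    ∃ a ∈ F q, (q : ℤ) ∣ m - a)).card

/-- at most `r` forbidden classes modulo each prime, and no local obstruction -/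
def Sys (r n : ℕ) (F : ℕ → Finset ℤ) : Prop :=
  ∀ q : ℕ, q.Prime → (F q).card ≤ r ∧ nu n F q < q

open Classical in
/-- the primes `p` in `(A, B]`, `(2 n) ^ (1/t) < p < 2 n`, such that `2 n - p` is a product of at most
two primes, all of them `> (2 n) ^ (1/9)` and `> (2 n) ^ (1/t)`, and `p` is not in the class of any element
of `F q` modulo `q`, for all primes `q ≤ (2 n) ^ (1/t)` -/
noncomputable def G (t n A B : ℕ) (F : ℕ → Finset ℤ) : Finset ℕ :=
  (Ioc A B).filter (fun p : ℕ => p.Prime ∧ ((2 * n : ℕ) : ℝ) ^ (1 / (t : ℝ)) < p ∧ p < 2 * n ∧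
    (2 * n - p).primeFactorsList.length ≤ 2 ∧
    (∀ q : ℕ, q.Prime → q ∣ 2 * n - p →
      ((2 * n : ℕ) : ℝ) ^ (1 / 9 : ℝ) < q ∧ ((2 * n : ℕ) : ℝ) ^ (1 / (t : ℝ)) < q) ∧
    ∀ q : ℕ, q.Prime → (q : ℝ) ≤ ((2 * n : ℕ) : ℝ) ^ (1 / (t : ℝ)) → ∀ a ∈ F q, ¬ (q : ℤ) ∣ p - a)

lemma e1 (n : ℕ) (m : ℤ) : -1 * m + ((2 * n : ℕ) : ℤ) = 2 * n - m := by push_cast; ring

lemma nu_eq (n : ℕ) (F : ℕ → Finset ℤ) (q : ℕ) : nu n F q = Pool.Agent.R463.CG.nu (-1) (2 * n : ℕ) F q := by
  classical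
  unfold nu Pool.Agent.R463.CG.nu
  congr 1
  ext m
  simp only [mem_filter, e1]

lemma G_eq (t n A B : ℕ) (F : ℕ → Finset ℤ) (hB : B ≤ 2 * n) :
    G t n A B F = Pool.Agent.R463.CG.G (-1) (2 * n : ℕ) t (2 * n) A B F := by
  classical
  unfold G Pool.Agent.R463.CG.G
  apply filter_congr
  intro p hp
  rw [mem_Ioc] at hp
  have hpn : p ≤ 2 * n := hp.2.trans hB
  have e : (2 * (n : ℤ) - (p : ℤ)) = ((2 * n - p : ℕ) : ℤ) := by omega
  simp only [e1]
  rw [e]
  simp only [Int.natAbs_natCast, Int.natCast_dvd_natCast]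
  constructor
  · rintro ⟨h1, h2, h0, h3, h4, h5⟩
    exact ⟨h1, h2, by omega, h3, h4, h5⟩
  · rintro ⟨h1, h2, h0, h3, h4, h5⟩
    exact ⟨h1, h2, by omega, h3, h4, h5⟩

/-- **Progressions in dense sets of representations `2 n = p + P_2`, `P_2 ≠ p`, under sieve conditions of
dimension `r`.**  For every `r` there is `t ≥ 1` such that for all `k`, `θ > 0` and `δ > 0` there is `D`
such that for all large `n`, uniformly for ALL systems `F` of at most `r` classes modulo each prime without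
local obstruction and all intervals `(A, B]` with `B ≤ 2 n` and `B - A ≥ θ (2 n)`, every subset `S` of `G`
with at least `δ |G|` elements contains a progression of `k` terms, all of them different from `n`, with
difference at most `(log 2 n) ^ D`. -/
theorem result (r : ℕ) : ∃ t : ℕ, 1 ≤ t ∧
    ∀ k : ℕ, ∀ θ δ : ℝ, 0 < θ → 0 < δ → ∃ D n₀ : ℕ, ∀ n : ℕ, n₀ ≤ n →
      ∀ F : ℕ → Finset ℤ, Sys r n F → ∀ A B : ℕ, B ≤ 2 * n → θ * (2 * n) ≤ (B : ℝ) - A →
      ∀ S : Finset ℕ, S ⊆ G t n A B F → δ * ((G t n A B F).card : ℝ) ≤ S.card →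
        ∃ a d : ℕ, 1 ≤ d ∧ (d : ℝ) ≤ Real.log (2 * n) ^ D ∧
          ∀ j < k, a + j * d ∈ S ∧ a + j * d ≠ n := by
  obtain ⟨t, ht, c, hc, -, H2⟩ := Pool.Agent.R463.CG.chen (-1) (by norm_num) r
  refine ⟨t, ht, ?_⟩
  intro k θ δ hθ hδ
  obtain ⟨D, X₀, H⟩ := H2 (2 * k) θ δ hθ hδ
  refine ⟨D, max X₀ 1, fun n hn F hF A B hB hAB S hS hSc => ?_⟩
  have hn0 : X₀ ≤ n := (le_max_left _ _).trans hn
  have hn1 : 1 ≤ n := (le_max_right _ _).trans hn
  rw [G_eq t n A B F hB] at hS hSc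
  obtain ⟨a, d, hd1, hd2, hj⟩ := H (2 * n) (by omega) (2 * n : ℕ) (by omega)
    (by rw [abs_of_nonneg (by positivity)]) F (by
      intro q hq
      refine ⟨(hF q hq).1, ?_⟩
      rw [← nu_eq]
      exact (hF q hq).2) A B hB (by push_cast; linarith) S hS hSc
  push_cast at hd2
  by_cases h : ∃ j < k, a + j * d = n
  · obtain ⟨j0, hj0, hjn⟩ := h
    refine ⟨a + k * d, d, hd1, hd2, fun j hjk => ⟨?_, ?_⟩⟩
    · have := hj (k + j) (by omega)
      rwa [add_mul, ← add_assoc] at this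
    · intro h2
      have h3 : (k + j) * d = j0 * d := by
        rw [add_mul]
        omega
      have h4 := Nat.eq_of_mul_eq_mul_right (by omega : 0 < d) h3
      omega
  · refine ⟨a, d, hd1, hd2, fun j hjk => ⟨hj j (by omega), fun h2 => h ⟨j, hjk, h2⟩⟩⟩

end Pool.Agent.Results.MP_7b7e48_nt.ChenSubsets
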