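import Pool.Agent.R461.CF.F5

/-!
# Linnik's theorem for the denominators of convergents

Let `q_0, q_1, …` be the denominators of the convergents of a continued fraction `[a_0; a_1, a_2, …]` whose partial
quotients are bounded by `B` (for instance the Fibonacci numbers, or the Pell numbers).

* Every sufficiently large integer is a sum of two distinct primes and at most `K` of the `q_j`, where `K` depends only
  on `B`. (Linnik proved this for the powers of `2`, Gallagher for the powers of every integer `b ≥ 2`.)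
* One sum `d` of few of the `q_j` serves almost all members of any finite set: for every set `T` of even integers in
  `[X / m, X]` and every `t ≥ 1` with `16 m (B + 1) t ≤ log X` there is an even sum `d` of `4 t` denominators such that
  for all but a proportion `C e^{-c t} + (log X)^{-U}` of the `N ∈ T` the integer `N - d` is a sum of two distinct
  primes and the number of its representations is asymptotic to the prediction of Hardy and Littlewood.

So `O(log log X)` denominators suffice for `(log X)^U` prescribed even integers simultaneously.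

The proof compares the primes with a sieve model on average over the sums of `t` random `q_j` with large indices and
`t` random `q_j` with small indices. The digit expansions of the classical case are replaced by the residuals
`‖q_j θ‖`: two consecutive residuals determine all the others, so few frequencies in every neighbourhood of every
fraction have small residuals for most `j`; the fourth moment of the sieve model is bounded by a sum of Romanoff's type.
-/

set_option autoImplicit false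

namespace Pool.Agent.Results.MP_7b7e48_nt.ConvergentDenominators

open Finset
open Pool.Agent.H560R3.GB (HL g)
open Pool.Agent.R461.CF (den)

/-- The number of ordered representations of `n` as a sum of two primes is asymptotic to the prediction `HL n` of Hardy
and Littlewood, and `n` is a sum of two distinct primes. -/
def Asymptotic (ε : ℝ) (n : ℕ) : Prop :=
  |(g n : ℝ) - HL n| ≤ ε * HL n ∧ ∃ p r : ℕ, p.Prime ∧ r.Prime ∧ p ≠ r ∧ p + r = n

open Classical in
/-- the members `N` of `T` for which the asymptotic formula fails for `N - d` -/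
noncomputable def exceptional (ε : ℝ) (T : Finset ℕ) (d : ℕ) : Finset ℕ := T.filter (fun N => ¬ Asymptotic ε (N - d))

lemma uniform (B m : ℕ) (hB : 1 ≤ B) (hm : 1 ≤ m) : ∃ c : ℝ, 0 < c ∧ ∀ (U : ℕ) (ε : ℝ), 0 < ε → ∃ (C : ℝ) (X₀ : ℕ), 0 ≤ C ∧
    ∀ X : ℕ, X₀ ≤ X → ∀ a : ℕ → ℕ, (∀ i, 1 ≤ i → 1 ≤ a i ∧ a i ≤ B) → ∀ t : ℕ, 1 ≤ t → 16 * m * (B + 1) * (t : ℝ) ≤ Real.log X →
    ∀ T : Finset ℕ, (∀ N ∈ T, Even N ∧ X ≤ m * N ∧ N ≤ X) →
    ∃ j : Fin (4 * t) → ℕ, Even (∑ i, den a (j i)) ∧ ((∑ i, den a (j i) : ℕ) : ℝ) * Real.log X ≤ 8 * (B + 1) * t * X ∧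
      ((exceptional ε T (∑ i, den a (j i))).card : ℝ) ≤ (C * Real.exp (-c * t) + 1 / Real.log X ^ U) * T.card := by
  classical
  obtain ⟨η, hη0, hη1, hmain⟩ := Pool.Agent.R461.CF.common_sum B m hB hm
  have h1η : 0 < 1 - η := by linarith
  have hlogη : Real.log (1 - η) < 0 := Real.log_neg h1η (by linarith)
  refine ⟨-Real.log (1 - η), by linarith, fun U ε hε => ?_⟩
  obtain ⟨C, N₀, hC, h0⟩ := hmain U ε hε
  refine ⟨C, N₀, hC, fun X hX a ha t ht htX T hT => ?_⟩
  obtain ⟨j, h1, h2, h3⟩ := h0 X hX a ha t ht htX T hT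
  refine ⟨j, h1, h2, ?_⟩
  have hexp : Real.exp (-(-Real.log (1 - η)) * t) = (1 - η) ^ t := by
    rw [neg_neg, mul_comm, Real.exp_nat_mul, Real.exp_log h1η]
  rw [hexp]
  apply h3
  · exact filter_subset _ _
  · intro N hN hgood
    unfold exceptional at hN
    rw [mem_filter] at hN
    exact hN.2 hgood

/-- The even case of Linnik's theorem -/
lemma even_case (B : ℕ) (hB : 1 ≤ B) : ∃ t N₀ : ℕ, ∀ N : ℕ, N₀ ≤ N → Even N → ∀ a : ℕ → ℕ, (∀ i, 1 ≤ i → 1 ≤ a i ∧ a i ≤ B) →
    ∃ p r : ℕ, p.Prime ∧ r.Prime ∧ p ≠ r ∧ ∃ j : Fin (4 * t) → ℕ, N = p + r + ∑ i, den a (j i) := by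
  classical
  obtain ⟨c, hc, hmain⟩ := uniform B 1 hB le_rfl
  obtain ⟨C, X₀, hC, h0⟩ := hmain 1 1 one_pos
  -- the choice of `t`
  obtain ⟨t₀, ht₀⟩ := exists_nat_ge (4 * C / c)
  obtain ⟨t, ht⟩ : ∃ t, t = t₀ + 1 := ⟨_, rfl⟩
  have htC : C * Real.exp (-c * t) ≤ 1 / 4 := by
    have e1 : 4 * C ≤ c * t := by
      rw [div_le_iff₀ hc] at ht₀
      rw [ht]
      push_cast
      nlinarith
    have e2 : c * t ≤ Real.exp (c * t) := by
      have := Real.add_one_le_exp (c * t)
      linarith
    have e3 : 0 < Real.exp (c * t) := Real.exp_pos _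
    rw [neg_mul, Real.exp_neg, ← div_eq_mul_inv, div_le_iff₀ e3]
    linarith
  obtain ⟨n1, hn1⟩ := Filter.eventually_atTop.1 ((Real.tendsto_log_atTop.comp tendsto_natCast_atTop_atTop).eventually_ge_atTop
    (16 * (1 : ℕ) * ((B : ℝ) + 1) * (t : ℝ) + 4))
  refine ⟨t, X₀ + n1, fun N hN hev a ha => ?_⟩
  have hlog : 16 * (1 : ℕ) * ((B : ℝ) + 1) * (t : ℝ) + 4 ≤ Real.log N := hn1 N (by omega)
  have hpos : (0 : ℝ) ≤ 16 * (1 : ℕ) * ((B : ℝ) + 1) * (t : ℝ) := by positivity
  obtain ⟨j, h1, h2, h3⟩ := h0 N (by omega) a ha t (by omega) (by linarith) {N} (by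
    intro M hM
    rw [mem_singleton] at hM
    rw [hM]
    exact ⟨hev, by omega, le_rfl⟩)
  have h4 : Asymptotic 1 (N - ∑ i, den a (j i)) := by
    by_contra hcon
    have e1 : exceptional 1 {N} (∑ i, den a (j i)) = {N} := by
      unfold exceptional
      rw [filter_eq_self]
      intro M hM
      rw [mem_singleton] at hM
      rw [hM]
      exact hcon
    rw [e1, card_singleton, pow_one] at h3
    have e2 : 1 / Real.log N ≤ 1 / 4 := one_div_le_one_div_of_le (by norm_num) (by linarith)
    push_cast at h3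
    linarith
  obtain ⟨_, p, r, hp, hr, hpr, hs⟩ := h4
  refine ⟨p, r, hp, hr, hpr, j, ?_⟩
  have a1 := hp.one_lt
  omega

/-- Let `B` be given.

(1) There are `K` and `N₀` such that for all partial quotients `a_1, a_2, …` in `[1, B]` every integer `N ≥ N₀` is a sum of
two distinct primes and at most `K` denominators `q_j`.

(2) For every `m ≥ 1` there is `c > 0`, for all `U` and `ε > 0` there are `C` and `X₀` such that for all `X ≥ X₀`, for all
partial quotients `a_1, a_2, …` in `[1, B]`, for all `t ≥ 1` with `16 m (B + 1) t ≤ log X` and for every finite set `T` of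
even integers in `[X / m, X]` there are `4 t` denominators with an even sum `d ≤ 8 (B + 1) t X / log X`, such that for all
but `(C e^{-c t} + (log X)^{-U}) #T` members `N` of `T` the integer `N - d` is a sum of two distinct primes and the number
of its ordered representations as a sum of two primes differs from `HL (N - d)` by at most `ε HL (N - d)`. -/
theorem result (B : ℕ) :
    (∃ K N₀ : ℕ, ∀ a : ℕ → ℕ, (∀ i, 1 ≤ i → 1 ≤ a i ∧ a i ≤ B) → ∀ N : ℕ, N₀ ≤ N →
      ∃ p r : ℕ, p.Prime ∧ r.Prime ∧ p ≠ r ∧ ∃ k ≤ K, ∃ j : Fin k → ℕ, N = p + r + ∑ i, den a (j i)) ∧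
    (∀ m : ℕ, 1 ≤ m → ∃ c : ℝ, 0 < c ∧ ∀ (U : ℕ) (ε : ℝ), 0 < ε → ∃ (C : ℝ) (X₀ : ℕ), 0 ≤ C ∧
      ∀ X : ℕ, X₀ ≤ X → ∀ a : ℕ → ℕ, (∀ i, 1 ≤ i → 1 ≤ a i ∧ a i ≤ B) → ∀ t : ℕ, 1 ≤ t → 16 * m * (B + 1) * (t : ℝ) ≤ Real.log X →
      ∀ T : Finset ℕ, (∀ N ∈ T, Even N ∧ X ≤ m * N ∧ N ≤ X) →
      ∃ j : Fin (4 * t) → ℕ, Even (∑ i, den a (j i)) ∧ ((∑ i, den a (j i) : ℕ) : ℝ) * Real.log X ≤ 8 * (B + 1) * t * X ∧
        ((exceptional ε T (∑ i, den a (j i))).card : ℝ) ≤ (C * Real.exp (-c * t) + 1 / Real.log X ^ U) * T.card) := by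
  classical
  rcases Nat.eq_zero_or_pos B with hB | hB
  · constructor
    · refine ⟨0, 0, fun a ha => ?_⟩
      have := ha 1 le_rfl
      omega
    · refine fun m _ => ⟨1, one_pos, fun U ε _ => ⟨0, 0, le_rfl, fun X _ a ha => ?_⟩⟩
      have := ha 1 le_rfl
      omega
  constructor
  · obtain ⟨t, N₀, h0⟩ := even_case B hB
    refine ⟨4 * t + 1, N₀ + 1, fun a ha N hN => ?_⟩
    rcases Nat.even_or_odd N with hev | hodd
    · obtain ⟨p, r, hp, hr, hpr, j, hj⟩ := h0 N (by omega) hev a ha
      exact ⟨p, r, hp, hr, hpr, 4 * t, by omega, j, hj⟩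
    · obtain ⟨p, r, hp, hr, hpr, j, hj⟩ := h0 (N - 1) (by omega) (Nat.Odd.sub_odd hodd odd_one) a ha
      refine ⟨p, r, hp, hr, hpr, 4 * t + 1, le_rfl, Fin.cons 0 j, ?_⟩
      rw [Fin.sum_univ_succ]
      simp only [Fin.cons_zero, Fin.cons_succ]
      have h1 : den a 0 = 1 := rfl
      rw [h1]
      omega
  · intro m hm
    exact uniform B m hB hm

end Pool.Agent.Results.MP_7b7e48_nt.ConvergentDenominators
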