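import Pool.Agent.R460.GX.Both

/-!
# Sums of two distinct primes: `2 n` for the `n` in the residue classes of EVERY modulus

For every modulus `q ≤ X ^ (2 / 3 - ρ)`, without any exceptional moduli, and every residue class `a` modulo `q` with
`gcd(a, q) ≤ (log X)^T`, all but at most `X / (q (log X)^A)` of the `n ≤ X`, `n ≡ a (mod q)`, have the number `g n` of
the pairs `(p, p')` of primes with `p + p' = 2 n`, `p > n > p'`, which Hardy and Littlewood predict, also if `p'` is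
restricted to an arbitrary window in `(0, n)` of a length of at least `n / (log n)^W`. For `q ≤ X ^ (7 / 10 - ρ)` all
but at most `X / (q (log X)^A)` of these `n` have at least `1 / 21` of the predicted number of pairs.

Definition used (in `Pool.Agent.H560R3.GB`): `sing m = 2 C₂ ∏_{p ∣ m, p > 2} (p - 1) / (p - 2)`, the singular series,
where `C₂ = ∏_{p > 2} (1 - 1 / (p - 1) ^ 2)` is the twin prime constant.

Proof: `R460/GH` and `R460/GS` (sums of types I and II in mean square over all fractions with the denominator `q`);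
see `Results/MP_dd84fd_nt/AsymptoticEveryModulus` and `Results/MP_dd84fd_nt/EveryModulusSevenTenths`.
-/

set_option autoImplicit false

namespace Pool.Agent.Results.MP_7b7e48_nt.DistinctPrimesInSparseClasses

open Finset
open Pool.Agent.H560R3.GB (sing)
open Pool.Agent.W93.PG (cnt WinP)

/-- the set `M_n` of the pairs `(p, p')` of primes with `p + p' = 2 n` and `p > n > p'` -/
def M (n : ℕ) : Finset (ℕ × ℕ) :=
  (range (2 * n + 1) ×ˢ range (2 * n + 1)).filter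
    (fun x => x.1.Prime ∧ x.2.Prime ∧ x.1 + x.2 = 2 * n ∧ n < x.1 ∧ x.2 < n)

/-- `g(n)`, the number of the elements of `M_n` -/
def g (n : ℕ) : ℕ := (M n).card

/-- the number of the elements `(p, p')` of `M_n` with `y₁ < p' ≤ y₂` -/
def gw (n y₁ y₂ : ℕ) : ℕ := ((M n).filter (fun x => y₁ < x.2 ∧ x.2 ≤ y₂)).card

/-- the prediction of Hardy and Littlewood for the number of the pairs in a window of the length `l` -/
noncomputable def pred (n : ℕ) (l : ℝ) : ℝ := sing (2 * n) * l / Real.log ((2 * n : ℕ) : ℝ) ^ 2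

/-- (1) `g n` is `pred n n`, up to a relative error of at most `ε`; (2) in every window `(y₁, y₂]` with
`0 ≤ y₁ < y₂ < n` and `y₂ - y₁ ≥ n / (log n)^W` the number of the pairs is `pred n (y₂ - y₁)`, up to a relative error
of at most `ε`. -/
def Formula (ε : ℝ) (W n : ℕ) : Prop :=
  |(g n : ℝ) - pred n n| ≤ ε * pred n n ∧
  ∀ y₁ y₂ : ℕ, y₁ < y₂ → y₂ < n → (n : ℝ) / Real.log n ^ W ≤ (y₂ : ℝ) - y₁ →
    |(gw n y₁ y₂ : ℝ) - pred n ((y₂ : ℝ) - y₁)| ≤ ε * pred n ((y₂ : ℝ) - y₁)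

/-- `g n` is at least `pred n n / 21`, and the same in every such window. -/
def Lower (W n : ℕ) : Prop :=
  1 / 21 * pred n n ≤ (g n : ℝ) ∧
  ∀ y₁ y₂ : ℕ, y₁ < y₂ → y₂ < n → (n : ℝ) / Real.log n ^ W ≤ (y₂ : ℝ) - y₁ →
    1 / 21 * pred n ((y₂ : ℝ) - y₁) ≤ (gw n y₁ y₂ : ℝ)

/-- The `n` with `0 < n ≤ X` and `n ≡ a (mod q)` for which `P n` is false. -/
def exceptional (P : ℕ → Prop) (X : ℝ) (q : ℕ) (a : ℤ) : Set ℕ :=
  {n : ℕ | 0 < n ∧ (n : ℝ) ≤ X ∧ (n : ℤ) ≡ a [ZMOD q] ∧ ¬ P n}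

lemma gw_eq (n y₁ y₂ : ℕ) (h : y₂ < n) : gw n y₁ y₂ = cnt (2 * n) y₁ y₂ := by
  unfold gw cnt M
  refine card_bij (fun x _ => x.2) ?_ ?_ ?_
  · intro x hx
    rw [mem_filter, mem_filter, mem_product, mem_range, mem_range] at hx
    obtain ⟨⟨⟨h1, h2⟩, h3, h4, h5, h6, h7⟩, h8, h9⟩ := hx
    rw [mem_filter, mem_Ioc]
    refine ⟨⟨h8, h9⟩, h4, ?_⟩
    have e : 2 * n - x.2 = x.1 := by omega
    rw [e]
    exact h3
  · intro x hx y hy he
    rw [mem_filter, mem_filter] at hx hy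
    obtain ⟨⟨-, -, -, h5, -⟩, -⟩ := hx
    obtain ⟨⟨-, -, -, h5', -⟩, -⟩ := hy
    exact Prod.ext (by omega) he
  · intro p hp
    rw [mem_filter, mem_Ioc] at hp
    obtain ⟨⟨h1, h2⟩, h3, h4⟩ := hp
    refine ⟨(2 * n - p, p), ?_, rfl⟩
    rw [mem_filter, mem_filter, mem_product, mem_range, mem_range]
    exact ⟨⟨⟨by simp only; omega, by simp only; omega⟩, h4, h3, by simp only; omega, by simp only; omega,
      by simp only; omega⟩, h1, h2⟩

lemma g_eq (n : ℕ) (hn : 1 ≤ n) : g n = gw n 0 (n - 1) := by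
  unfold g gw
  congr 1
  symm
  rw [filter_eq_self]
  intro x hx
  unfold M at hx
  rw [mem_filter] at hx
  obtain ⟨-, -, h4, -, -, h7⟩ := hx
  have := h4.pos
  exact ⟨this, by omega⟩

lemma pred_nn {n : ℕ} {l : ℝ} (hl : 0 ≤ l) : 0 ≤ pred n l := by
  unfold pred
  have := Pool.Agent.R460.GS.one_le_sing (2 * n)
  positivity

lemma pred_sub (n : ℕ) (hn : 1 ≤ n) : pred n (((n - 1 : ℕ) : ℝ) - ((0 : ℕ) : ℝ)) = pred n n - pred n n / n := by
  unfold pred
  rw [Nat.cast_sub hn]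
  have hn0 : (0 : ℝ) < n := by exact_mod_cast hn
  push_cast
  field_simp
  ring

lemma len_one {n : ℕ} (hn : 8 ≤ n) : (n : ℝ) / Real.log n ^ 1 ≤ ((n - 1 : ℕ) : ℝ) - ((0 : ℕ) : ℝ) := by
  rw [Nat.cast_sub (by omega), pow_one]
  have hn0 : (8 : ℝ) ≤ n := by exact_mod_cast hn
  have h8 : 2 ≤ Real.log (8 : ℝ) := by
    have : (8 : ℝ) = 2 ^ 3 := by norm_num
    rw [this, Real.log_pow]
    have := Real.log_two_gt_d9
    push_cast
    linarith
  have h2 : 2 ≤ Real.log n := h8.trans (Real.log_le_log (by norm_num) hn0)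
  have h3 : (n : ℝ) / Real.log n ≤ n / 2 := div_le_div_of_nonneg_left (by linarith) (by norm_num) h2
  push_cast
  linarith

lemma formula_of (ε : ℝ) (hε : 0 < ε) (W : ℕ) : ∃ n₀ : ℕ, ∀ n : ℕ, n₀ ≤ n →
    WinP (ε / 2) (W + 2) (2 * n) → Formula ε W n := by
  obtain ⟨m, hm⟩ : ∃ m : ℕ, 2 / ε ≤ m := exists_nat_ge _
  refine ⟨8 + m, fun n hn hw => ?_⟩
  have hn8 : 8 ≤ n := by omega
  have hn0 : (8 : ℝ) ≤ n := by exact_mod_cast hn8
  have hnm : 2 / ε ≤ n := hm.trans (by exact_mod_cast (by omega : m ≤ n))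
  have hwin : ∀ y₁ y₂ : ℕ, y₁ < y₂ → y₂ < n → (n : ℝ) / Real.log n ^ (W + 1) ≤ (y₂ : ℝ) - y₁ →
    |(gw n y₁ y₂ : ℝ) - pred n ((y₂ : ℝ) - y₁)| ≤ ε / 2 * pred n ((y₂ : ℝ) - y₁) := by
    intro y₁ y₂ h1 h2 h3
    have k1 := hw y₁ y₂ h1 (by omega) (Pool.Agent.R460.GX.win_len hn8 h3)
    rw [← gw_eq n y₁ y₂ h2] at k1
    exact k1
  have h8 : 2 ≤ Real.log (8 : ℝ) := by
    have : (8 : ℝ) = 2 ^ 3 := by norm_num
    rw [this, Real.log_pow]
    have := Real.log_two_gt_d9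
    push_cast
    linarith
  have hL : 2 ≤ Real.log n := h8.trans (Real.log_le_log (by norm_num) hn0)
  have hmono : ∀ i j : ℕ, i ≤ j → (n : ℝ) / Real.log n ^ j ≤ n / Real.log n ^ i := fun i j hij =>
    div_le_div_of_nonneg_left (by linarith) (by positivity) (pow_le_pow_right₀ (by linarith) hij)
  constructor
  · have k1 := hwin 0 (n - 1) (by omega) (by omega) ((hmono 1 (W + 1) (by omega)).trans (len_one hn8))
    rw [pred_sub n (by omega), ← g_eq n (by omega)] at k1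
    have k2 : 0 ≤ pred n n := pred_nn (by linarith)
    have k3 : pred n n / n ≤ ε / 2 * pred n n := by
      rw [div_le_iff₀ (by linarith)]
      have : 1 ≤ ε / 2 * n := by
        rw [div_le_iff₀ hε] at hnm
        linarith
      nlinarith
    have k4 : 0 ≤ pred n n / n := by positivity
    rw [abs_le] at k1 ⊢
    have k5 : ε / 2 * (pred n n - pred n n / n) ≤ ε / 2 * pred n n := by
      apply mul_le_mul_of_nonneg_left _ (by positivity)
      linarith
    constructor <;> linarith [k1.1, k1.2]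
  · intro y₁ y₂ h1 h2 h3
    refine (hwin y₁ y₂ h1 h2 ((hmono W (W + 1) (by omega)).trans h3)).trans ?_
    apply mul_le_mul_of_nonneg_right (by linarith)
    apply pred_nn
    have : (y₁ : ℝ) ≤ y₂ := by exact_mod_cast h1.le
    linarith

lemma lower_of (W : ℕ) : ∃ n₀ : ℕ, ∀ n : ℕ, n₀ ≤ n → Pool.Agent.R460.GS.WinL (W + 2) (2 * n) → Lower W n := by
  refine ⟨30, fun n hn hw => ?_⟩
  have hn8 : 8 ≤ n := by omega
  have hn0 : (30 : ℝ) ≤ n := by exact_mod_cast hn
  have hwin : ∀ y₁ y₂ : ℕ, y₁ < y₂ → y₂ < n → (n : ℝ) / Real.log n ^ (W + 1) ≤ (y₂ : ℝ) - y₁ →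
    1 / 20 * pred n ((y₂ : ℝ) - y₁) ≤ (gw n y₁ y₂ : ℝ) := by
    intro y₁ y₂ h1 h2 h3
    have k1 := hw y₁ y₂ h1 (by omega) (Pool.Agent.R460.GX.win_len hn8 h3)
    rw [← gw_eq n y₁ y₂ h2] at k1
    exact k1
  have h8 : 2 ≤ Real.log (8 : ℝ) := by
    have : (8 : ℝ) = 2 ^ 3 := by norm_num
    rw [this, Real.log_pow]
    have := Real.log_two_gt_d9
    push_cast
    linarith
  have hL : 2 ≤ Real.log n := h8.trans (Real.log_le_log (by norm_num) (by linarith))
  have hmono : ∀ i j : ℕ, i ≤ j → (n : ℝ) / Real.log n ^ j ≤ n / Real.log n ^ i := fun i j hij =>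
    div_le_div_of_nonneg_left (by linarith) (by positivity) (pow_le_pow_right₀ (by linarith) hij)
  constructor
  · have k1 := hwin 0 (n - 1) (by omega) (by omega) ((hmono 1 (W + 1) (by omega)).trans (len_one hn8))
    rw [pred_sub n (by omega), ← g_eq n (by omega)] at k1
    have k2 : 0 ≤ pred n n := pred_nn (by linarith)
    have k3 : pred n n / n ≤ 1 / 30 * pred n n := by
      rw [div_le_iff₀ (by linarith)]
      nlinarith
    linarith
  · intro y₁ y₂ h1 h2 h3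
    refine le_trans ?_ (hwin y₁ y₂ h1 h2 ((hmono W (W + 1) (by omega)).trans h3))
    apply mul_le_mul_of_nonneg_right (by norm_num)
    apply pred_nn
    have : (y₁ : ℝ) ≤ y₂ := by exact_mod_cast h1.le
    linarith

/-- For all `ε, ρ > 0`, `W`, `A` and `T` and all sufficiently large real `X`, for every integer `q ≥ 1` and every
integer `a` with `gcd(a, q) ≤ (log X)^T`: (1) if `q ≤ X ^ (2 / 3 - ρ)`, then all but at most `X / (q (log X)^A)` of
the `n` with `0 < n ≤ X` and `n ≡ a (mod q)` satisfy `Formula ε W n`; (2) if `q ≤ X ^ (7 / 10 - ρ)`, then all but at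
most `X / (q (log X)^A)` of these `n` satisfy `Lower W n`. -/
theorem result (ε ρ : ℝ) (hε : 0 < ε) (hρ : 0 < ρ) (W A T : ℕ) :
    ∃ X₀ : ℝ, ∀ X : ℝ, X₀ ≤ X → ∀ q : ℕ, 1 ≤ q → ∀ a : ℤ, (Int.gcd a q : ℝ) ≤ Real.log X ^ T →
      ((q : ℝ) ≤ X ^ (2 / 3 - ρ) → (exceptional (Formula ε W) X q a).Finite ∧
        ((exceptional (Formula ε W) X q a).ncard : ℝ) ≤ X / (q * Real.log X ^ A)) ∧
      ((q : ℝ) ≤ X ^ (7 / 10 - ρ) → (exceptional (Lower W) X q a).Finite ∧
        ((exceptional (Lower W) X q a).ncard : ℝ) ≤ X / (q * Real.log X ^ A)) := by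
  obtain ⟨x₀, h0⟩ := Pool.Agent.R460.GX.mid_asymp (Formula ε W) (ε / 2) (by linarith) (W + 2)
    (formula_of ε hε W) ρ hρ A T
  obtain ⟨x₁, h1⟩ := Pool.Agent.R460.GX.mid_few (Lower W) (W + 2) (lower_of W) ρ hρ A T
  refine ⟨max x₀ x₁, fun X hX q hq a ha => ⟨fun hqX => ?_, fun hqX => ?_⟩⟩
  · exact h0 X ((le_max_left _ _).trans hX) q hq hqX a ha
  · exact h1 X ((le_max_right _ _).trans hX) q hq hqX a ha

end Pool.Agent.Results.MP_7b7e48_nt.DistinctPrimesInSparseClasses
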