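import Pool.Agent.R460.GS.Asm

/-!
# Sums of two distinct primes in the residue classes of every modulus up to `N ^ (7 / 10 - ρ)`

For every modulus `q ≤ N ^ (7 / 10 - ρ)` and every residue class `a` modulo `q` with `gcd(a, q) ≤ (log N)^T`,
all but `N / (q (log N)^A)` of the integers `n ≤ N` with `2 n ≡ a (mod q)` have the following property: every
interval `(y₁, y₂]` of length at least `2 n / (log 2 n)^A` between `n` and `2 n` contains at least one
twentieth of the number of primes `p` for which `2 n - p` is a prime that is predicted by Hardy and Littlewood.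
All these representations of `2 n` are sums of two distinct primes.

The proof (project GS of this run: `R460/GS`, `R453/GS`, `R461/GS`, `R462/GS`) compares the primes with a lower
bound sieve of Harman type: the parts which are bilinear sums of Type II in the range that is admissible for all
characters modulo `q` are treated asymptotically, the remaining parts are discarded.
-/

set_option autoImplicit false

namespace Pool.Agent.Results.MP_7b7e48_nt.LargeModuliWindows

open Finset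
open Pool.Agent.H560R3.GB (sing)

/-- The number of the pairs `(p, q)` of primes with `p + q = 2 n`, `p > n > q` and `y₁ < p ≤ y₂`. -/
def count (n y₁ y₂ : ℕ) : ℕ := ((Ioc y₁ y₂).filter (fun p => n < p ∧ p.Prime ∧ (2 * n - p).Prime)).card

/-- Every interval `(y₁, y₂]` of length at least `2 n / (log 2 n)^A` between `n` and `2 n` contains the larger
member of at least `(1 / 20) 𝔖(2 n) (y₂ - y₁) / (log 2 n)²` pairs of distinct primes with the sum `2 n`. -/
def Good (A n : ℕ) : Prop :=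
  ∀ y₁ y₂ : ℕ, n ≤ y₁ → y₁ < y₂ → y₂ ≤ 2 * n → (2 * n : ℝ) / Real.log (2 * n) ^ A ≤ (y₂ : ℝ) - y₁ →
    1 / 20 * (sing (2 * n) * ((y₂ : ℝ) - y₁) / Real.log (2 * n) ^ 2) ≤ (count n y₁ y₂ : ℝ)

open Classical in
/-- The integers `1 ≤ n ≤ N` with `2 n ≡ a (mod q)` which are not good. -/
noncomputable def exceptional (A N q : ℕ) (a : ℤ) : Finset ℕ :=
  (Icc 1 N).filter (fun n => ((2 * n : ℕ) : ℤ) ≡ a [ZMOD q] ∧ ¬ Good A n)

lemma good_of_WinL (A n : ℕ) (hn : 2 ≤ n) (h : Pool.Agent.R460.GS.WinL (A + 1) (2 * n)) : Good A n := by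
  intro y₁ y₂ h1 h2 h3 h4
  have hn' : (2 : ℝ) ≤ n := by exact_mod_cast hn
  have hlog : 1 ≤ Real.log (2 * n) := by
    rw [Real.le_log_iff_exp_le (by positivity)]
    have := Real.exp_one_lt_d9
    linarith
  have h5 : ((2 * n : ℕ) : ℝ) / Real.log ((2 * n : ℕ) : ℝ) ^ (A + 1) ≤ (y₂ : ℝ) - y₁ := by
    push_cast
    refine le_trans ?_ h4
    apply div_le_div_of_nonneg_left (by positivity) (by positivity)
    exact pow_le_pow_right₀ hlog (by omega)
  have h6 := h y₁ y₂ h2 h3 h5
  push_cast at h6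
  refine h6.trans ?_
  have h7 : Pool.Agent.W93.PG.cnt (2 * n) y₁ y₂ = count n y₁ y₂ := by
    unfold Pool.Agent.W93.PG.cnt count
    congr 1
    apply filter_congr
    intro p hp
    rw [mem_Ioc] at hp
    constructor
    · rintro ⟨a1, a2⟩
      exact ⟨by omega, a1, a2⟩
    · rintro ⟨_, a1, a2⟩
      exact ⟨a1, a2⟩
  rw [h7]

lemma good_one (A : ℕ) : Good A 1 := by
  intro y₁ y₂ h1 h2 h3 h4
  exfalso
  have e1 : y₁ = 1 := by omega
  have e2 : y₂ = 2 := by omega
  rw [e1, e2] at h4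
  have hlog0 : 0 < Real.log 2 := Real.log_pos (by norm_num)
  have hlog : Real.log 2 ≤ 1 := by
    have := Real.log_two_lt_d9
    linarith
  have h5 : Real.log 2 ^ A ≤ 1 := pow_le_one₀ hlog0.le hlog
  have h6 : (2 : ℝ) ≤ 2 / Real.log 2 ^ A := by
    rw [le_div_iff₀ (by positivity)]
    nlinarith [pow_pos hlog0 A]
  norm_num at h4
  linarith

lemma mod_of (m q : ℕ) (a : ℤ) (hq : 1 ≤ q) (h : (m : ℤ) ≡ a [ZMOD q]) : m % q = (a % (q : ℤ)).toNat % q := by
  have hq0 : (q : ℤ) ≠ 0 := by exact_mod_cast (by omega : q ≠ 0)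
  have h1 : 0 ≤ a % (q : ℤ) := Int.emod_nonneg _ hq0
  have h2 : (m : ℤ) % q = a % q := h
  have h3 : ((m % q : ℕ) : ℤ) = ((a % (q : ℤ)).toNat : ℤ) := by
    rw [Int.toNat_of_nonneg h1, ← h2]
    push_cast
    rfl
  have h4 : m % q = (a % (q : ℤ)).toNat := by exact_mod_cast h3
  rw [← h4, Nat.mod_mod]

lemma gcd_of (q : ℕ) (a : ℤ) (hq : 1 ≤ q) : Nat.gcd (a % (q : ℤ)).toNat q = Int.gcd a q := by
  have hq0 : (q : ℤ) ≠ 0 := by exact_mod_cast (by omega : q ≠ 0)
  have h1 : 0 ≤ a % (q : ℤ) := Int.emod_nonneg _ hq0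
  have h2 : Int.gcd (a % (q : ℤ)) q = Int.gcd a q := Int.gcd_emod a q
  rw [← h2]
  conv_rhs => rw [← Int.toNat_of_nonneg h1]
  exact (Int.gcd_natCast_natCast _ _).symm

/-- Let `ρ > 0`, `A` and `T` be given. For all sufficiently large `N`, every modulus `1 ≤ q ≤ N ^ (7 / 10 - ρ)` and
every integer `a` with `gcd(a, q) ≤ (log N)^T`, all but at most `N / (q (log N)^A)` of the integers `n ≤ N` with
`2 n ≡ a (mod q)` are good. -/
theorem result (ρ : ℝ) (hρ : 0 < ρ) (A T : ℕ) : ∃ N₀ : ℕ, ∀ N : ℕ, N₀ ≤ N → ∀ q : ℕ, 1 ≤ q →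
    (q : ℝ) ≤ (N : ℝ) ^ (7 / 10 - ρ) → ∀ a : ℤ, (Int.gcd a q : ℝ) ≤ Real.log N ^ T →
      ((exceptional A N q a).card : ℝ) ≤ (N : ℝ) / (q * Real.log N ^ A) := by
  classical
  obtain ⟨N₁, h1⟩ := Pool.Agent.R460.GS.gs_all ρ hρ (A + 1) T
  refine ⟨N₁ + 4, fun N hN q hq1 hqN a ha => ?_⟩
  have hN4 : (4 : ℝ) ≤ N := by exact_mod_cast (by omega : 4 ≤ N)
  have hN0 : (0 : ℝ) < N := by linarith
  have hq0 : (0 : ℝ) < q := by exact_mod_cast hq1
  have hlogN : 1 ≤ Real.log N := by
    rw [Real.le_log_iff_exp_le hN0]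
    have := Real.exp_one_lt_d9
    linarith
  have hlog2 : Real.log N ≤ Real.log ((2 * N : ℕ) : ℝ) := by
    apply Real.log_le_log hN0
    push_cast
    linarith
  have hlog3 : 2 ≤ Real.log ((2 * N : ℕ) : ℝ) := by
    push_cast
    rw [Real.le_log_iff_exp_le (by positivity)]
    have e1 := Real.exp_one_lt_d9
    have e2 : Real.exp 2 = Real.exp 1 * Real.exp 1 := by rw [← Real.exp_add]; norm_num
    have e3 := Real.exp_pos 1
    rw [e2]
    nlinarith
  have hexp : (0 : ℝ) ≤ 7 / 10 - ρ := by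
    by_contra hcon
    rw [not_le] at hcon
    have : (N : ℝ) ^ (7 / 10 - ρ) < 1 := Real.rpow_lt_one_of_one_lt_of_neg (by linarith) hcon
    have hq1' : (1 : ℝ) ≤ q := by exact_mod_cast hq1
    linarith
  have h2 := h1 (2 * N) (by omega) q hq1 (by
    refine hqN.trans ?_
    apply Real.rpow_le_rpow hN0.le _ hexp
    push_cast
    linarith) (a % (q : ℤ)).toNat (by
      rw [gcd_of q a hq1]
      refine ha.trans ?_
      exact pow_le_pow_left₀ (by linarith) hlog2 T)
  have h3 : (exceptional A N q a).card ≤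
      (Pool.Agent.Y883.T4.badc (Pool.Agent.R460.GS.WinL (A + 1)) (2 * N) q (a % (q : ℤ)).toNat).card := by
    apply card_le_card_of_injOn (fun n => 2 * n)
    · intro n hn
      rw [mem_coe] at hn
      unfold exceptional at hn
      rw [mem_filter, mem_Icc] at hn
      obtain ⟨⟨a1, a2⟩, a3, a4⟩ := hn
      have a5 : n ≠ 1 := by
        rintro rfl
        exact a4 (good_one A)
      rw [mem_coe]
      unfold Pool.Agent.Y883.T4.badc
      rw [mem_filter, mem_Icc]
      have b1 : 2 ≤ 2 * n := by omega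
      have b2 : 2 * n ≤ 2 * N := by omega
      refine ⟨⟨by first | exact b1 | exact (by omega : 1 ≤ 2 * n), b2⟩, ⟨n, by ring⟩, mod_of _ q a hq1 a3, ?_⟩
      intro h5
      exact a4 (good_of_WinL A n (by omega) h5)
    · intro n _ n' _ hnn
      simp only at hnn
      omega
  have h4 : ((exceptional A N q a).card : ℝ) ≤ ((2 * N : ℕ) : ℝ) / (q * Real.log ((2 * N : ℕ) : ℝ) ^ (A + 1)) := by
    refine le_trans ?_ h2
    exact_mod_cast h3
  refine h4.trans ?_
  rw [div_le_div_iff₀ (by positivity) (by positivity)]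
  have h5 : Real.log N ^ A ≤ Real.log ((2 * N : ℕ) : ℝ) ^ A := pow_le_pow_left₀ (by linarith) hlog2 A
  have h6 : 2 * Real.log N ^ A ≤ Real.log ((2 * N : ℕ) : ℝ) ^ (A + 1) := by
    rw [pow_succ]
    have : 0 < Real.log ((2 * N : ℕ) : ℝ) ^ A := by positivity
    nlinarith
  have h7 : ((2 * N : ℕ) : ℝ) = 2 * N := by push_cast; ring
  rw [h7] at h6 ⊢
  calc 2 * (N : ℝ) * (q * Real.log N ^ A) = (N * q) * (2 * Real.log N ^ A) := by ring
    _ ≤ (N * q) * Real.log (2 * N) ^ (A + 1) := mul_le_mul_of_nonneg_left h6 (by positivity)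
    _ = _ := by ring

end Pool.Agent.Results.MP_7b7e48_nt.LargeModuliWindows
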